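import Pool.Agent.Run7.h619.AU.Conv
import Pool.Agent.Run7.h619.PR.All2

/-!
# `Ω`-stable skew products over Anosov diffeomorphisms lie in `U_3`

`V n = ℝⁿ`, `DiffM n N r = Diff^r(N)` with its `C^r` topology `strongTop`
(`Pool/Agent/H718R2/G0.lean`); `OmegaStable`, `Omega F = Ω(F)`, `Per F`
(`Pool/Agent/TH80/OMS/Defs.lean`, `SymDefs.lean`).

In `Pool/Agent/Run7/h619/AA/Defs.lean`:
* `dv`: the derivative; `IsNormOn`, `IsContTan`: continuous norms on the tangent bundle; `Contr`:
  `‖Df^m v‖ ≤ C μ^m ‖v‖`;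
* `PDiff k b n M B N`: the `C^∞` diffeomorphisms `Θ : M × B → N`; `Θ.pt x y = Θ(x, y)`;
* `IsActSkew Θ φ h c F`: `F(Θ(x, y)) = Θ(φ_(c(y))(x), h(y))`, where `φ` is a `C^∞` action of `ℝ^d` on `M`
  (`IsAction`) and `c : B → ℝ^d` is continuous;
* `TransChain`: chain transitivity (every transitive diffeomorphism is chain transitive).

In `Pool/Agent/Run7/h619/AU/Defs.lean`: `fwd F = F`, `bwd F = F⁻¹`; `SubFam`, `TanClosed`, `IsInv`,
`IsSubb`, `HypOn f g K`: the set `K` is hyperbolic for `f` (with inverse `g`); `Ws f P = W^s(P)`;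
`IsSpectral f P`: `P` is the spectral decomposition of `Ω(f)`; `NoCycles`: there are no cycles; `InU3`:
Axiom A and no cycles.
-/

set_option autoImplicit false

open scoped Manifold ContDiff Topology

universe u v w

namespace Pool.Agent.Results.MP_814647_an.CyclesOverAnosov

open Pool.Agent.H718R2.G Pool.Agent.TH80.OMS Run7.h619.AA Run7.h619.AU

/-- Let `M`, `B`, `N` be closed manifolds, `B` infinite, `Θ : M × B → N` a `C^∞` diffeomorphism,
`1 ≤ r ≤ ∞`, and let `h ∈ Diff^r(B)` be a chain transitive Anosov diffeomorphism. Let `F ∈ Diff^r(N)` be a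
skew product `F(Θ(x, y)) = Θ(φ_(c(y))(x), h(y))`, where `φ` is a `C^∞` action of `ℝ^d` on `M` and
`c : B → ℝ^d` is continuous.

If `F` is `Ω`-stable in `Diff^r(N)`, then `F` satisfies Axiom A and has no cycles. -/
theorem result {d k b n : ℕ} {M : Type v} {B : Type w} {N : Type u} [TopologicalSpace M] [T2Space M]
    [CompactSpace M] [ChartedSpace (V k) M] [IsManifold (𝓡 k) ∞ M] [MetricSpace B] [CompactSpace B]
    [ChartedSpace (V b) B] [IsManifold (𝓡 b) ∞ B] [TopologicalSpace N] [T2Space N] [CompactSpace N]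
    [ChartedSpace (V n) N] [IsManifold (𝓡 n) ∞ N] [Infinite B] (r : ℕ∞) (hr : 1 ≤ r)
    (Θ : PDiff k b n M B N) (φ : V d → M → M) (h : DiffM b B r) (c : B → V d) (F : DiffM n N r)
    (H : IsActSkew Θ φ h c F) (hh : HypOn (n := b) (fwd h) (bwd h) Set.univ)
    (hT : TransChain (fwd h)) (hF : OmegaStable n N r F) : InU3 (n := n) (fwd F) (bwd F) :=
  main hr H hh (Run7.h619.PR.anosov_shadow hr ((hypOn_iff h _).1 hh)) hT hF

end Pool.Agent.Results.MP_814647_an.CyclesOverAnosov
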