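import Pool.Agent.Run7.h491.HP.Lim

/-!
# `Ω`-stable diffeomorphisms near time-one maps of flows, all classes `C^r`

`V n = ℝⁿ`, `DiffM n N r = Diff^r(N)`, `strongTop n N r` is its strong (Whitney) `C^r` topology (the
usual one, `N` being compact; `Pool/Agent/H718R2/G0.lean`); `OmegaStable n N r F`, `Omega F = Ω(F)`,
`Per F` (`Pool/Agent/TH80/OMS/Defs.lean`, `SymDefs.lean`): `Ω`-stability, nonwandering set, periodic
points; `FiniteNoCycle F` (`CycDefs.lean`): `Ω(F)` is finite and `F` has no cycles;
`IsHyperbolicPer n F p` (`Pool/Agent/Y504/CO/Rob.lean`): `p` is a hyperbolic periodic point of `F`.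

* `IsCrFlow n N r Ψ` (`Pool/Agent/Run7/h491/HP/Flow.lean`): `Ψ` is a flow on `N`, and `(t, y) ↦ Ψ_t(y)`
  is of class `C^r`;
* `TrivRec Ψ` (`Pool/Agent/Run7/h491/HP/Lim.lean`): `Ψ` has only trivial recurrence: if every
  neighbourhood of `y` contains some `Ψ_t(y)`, `t ≥ 1`, then `Ψ_T(y) = y` for some `T > 0` (so `y` is fixed
  or lies on a closed orbit). For instance, by the theorems of Poincaré–Bendixson and Markley, this holds
  for all flows on the sphere, the projective plane and the Klein bottle.

Proof: if `G` is near `F`, all maps near `G` have only finitely many points of each period. If `G`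
commutes with `Ψ` and `G^m(y) = Ψ_τ(y)` with `|τ|` small compared with `m`, then the nearby map
`Ψ_(-τ/m) ∘ G` fixes the whole flow orbit of `y` after `m` steps, so this orbit is a point. If `G = Ψ_1`
this excludes all closed orbits of `Ψ`; so if `Ψ` has only trivial recurrence then all recurrent points of
`G` are fixed points, and the theorem of project CO (helper504 and helpers 3, 38, 67, 96, 117, 284, 286,
306, 329, 333, 417, 600, 614, 739, 810, 832, 863, 921, 929, 948, 987) applies to `G` and to `F`.
-/

set_option autoImplicit false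

open scoped Manifold ContDiff Topology

universe u

namespace Pool.Agent.Results.MP_814647_an.FlowLimits

open Pool.Agent.H718R2.G Pool.Agent.TH80.OMS Pool.Agent.Y504.CO Run7.h491.HP

/-- Let `N` be a closed manifold, `1 ≤ r ≤ ∞`, and let `F ∈ Diff^r(N)` be `Ω`-stable. Then `F` has a
neighbourhood `U` in `Diff^r(N)` such that the following holds for all `G ∈ U` and all `C^r` flows `Ψ`.

1. If `G` commutes with `Ψ`, then there is `δ > 0` such that the points `y` with `G^m(y) = Ψ_τ(y)`,
   `m ≥ 1`, `|τ| < δ m`, are fixed by the flow.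
2. If `G = Ψ_1` is the time-one map of the flow, then `Ψ` has no closed orbits and only finitely many
   fixed points, and all periodic points of `F` are fixed points of `F`. If moreover all recurrent points
   of `Ψ` are fixed or lie on closed orbits, then `F` satisfies Axiom A and has no cycles: `Ω(F)` is
   finite and consists of hyperbolic fixed points, and there are no cycles.

So 2. holds if `F` is a limit in `Diff^r(N)` of time-one maps of flows (with trivial recurrence). -/
theorem result {n : ℕ} {N : Type u} [TopologicalSpace N] [T2Space N] [CompactSpace N]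
    [ChartedSpace (V n) N] [IsManifold (𝓡 n) ∞ N] (r : ℕ∞) (hr : 1 ≤ r) (F : DiffM n N r)
    (hF : OmegaStable n N r F) :
    ∃ U : Set (DiffM n N r), IsOpen[strongTop n N r] U ∧ F ∈ U ∧ ∀ G ∈ U, ∀ Ψ : ℝ → N → N,
      IsCrFlow n N r Ψ →
      ((∀ t y, G (Ψ t y) = Ψ t (G y)) → ∃ δ : ℝ, 0 < δ ∧ ∀ m : ℕ, 1 ≤ m → ∀ τ : ℝ, |τ| < δ * m →
        ∀ y, G^[m] y = Ψ τ y → ∀ t, Ψ t y = y) ∧
      ((∀ y, G y = Ψ 1 y) →
        {y | ∀ t, Ψ t y = y}.Finite ∧ (∀ (y : N) (T : ℝ), 0 < T → Ψ T y = y → ∀ t, Ψ t y = y) ∧
        (∀ p ∈ Per F, F p = p) ∧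
        (TrivRec Ψ → FiniteNoCycle F ∧ ∀ p ∈ Omega F, IsHyperbolicPer n F p ∧ F p = p)) :=
  flow_limits hr F hF

end Pool.Agent.Results.MP_814647_an.FlowLimits
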