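import Pool.Agent.Run7.h619.OM.StmA

/-!
# `Ω`-stable diffeomorphisms and skew products over hyperbolic maps and flows

`V n = ℝⁿ`, `DiffM n N r = Diff^r(N)` with its `C^r` topology `strongTop`
(`Pool/Agent/H718R2/G0.lean`); `OmegaStable`, `Omega F = Ω(F)`, `Per F`
(`Pool/Agent/TH80/OMS/Defs.lean`, `SymDefs.lean`).

In `Pool/Agent/Run7/h619/SK` (`Defs.lean`, `Flex.lean`, `FlowA.lean`, `FlowB.lean`, `FlowStm.lean`):
* `IsAct d n N r ψ`: a `C^r` action `ψ` of `ℝ^d` on `N`; `IsRFlow n N r Ψ`: a `C^r` flow on `N`;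
* `IsSkew F Θ ψ φ f h c`: `F` is on the compact set `Θ(X × Y)` the skew product
  `skew φ f h c : (x, y) ↦ (φ_(c(y)) f(x), h(y))`, where `φ` is the restriction of `ψ` to the fibres
  `Θ(X × {y})`, and `f` is continuous and commutes with `φ`;
* `ChainTrans`, `PerShadow`: chain transitivity, periodic shadowing property (both hold for transitive
  Anosov diffeomorphisms, basic sets, subshifts of finite type);
* `IsSkewFlow n r Θ ψ Ψ φ g C`: the flow `Ψ` is on `Θ(X × Y)` the skew product flow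
  `(x, y) ↦ (φ_(C(t, y)) x, g_t(y))`; `IsBaseFlow g`: `g` is chain transitive, has the periodic shadowing
  property, and `Y` is not a single orbit (for instance a basic set of a flow, not a single orbit).

`SkewConcl` (`Pool/Agent/Run7/h619/OM/StmA.lean`): the conclusions of the first part.
-/

set_option autoImplicit false

open scoped Manifold ContDiff Topology

universe u v w

namespace Pool.Agent.Results.MP_814647_an.HyperbolicBases

open Pool.Agent.H718R2.G Pool.Agent.W564.SC Pool.Agent.TH80.OMS Run7.h619.SK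

/-- Let `N` be a closed manifold, `1 ≤ r ≤ ∞`, and let `F ∈ Diff^r(N)` be `Ω`-stable.

1. Let `F` be on the compact set `Θ(X × Y)` a skew product `(x, y) ↦ (φ_(c(y)) f(x), h(y))` over a chain
   transitive homeomorphism `h` with the periodic shadowing property, the action `φ` of `ℝ^d` being the
   restriction of a `C^∞` action on `N`. Then `SkewConcl F Θ φ f h c`.
2. On no nonempty compact set `Θ(X × Y)` is `F` of the form `F(Θ(x, y)) = Ψ_τ(Θ(f(x), y))`, `τ > 0`,
   where `Ψ` is a `C^∞` flow on `N` which is on `Θ(X × Y)` a skew product flow over a flow `g` as in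
   `IsBaseFlow`, and `f` is continuous and commutes with `φ`. -/
theorem result {n : ℕ} {N : Type u} [TopologicalSpace N] [T2Space N] [CompactSpace N]
    [ChartedSpace (V n) N] [IsManifold (𝓡 n) ∞ N] (r : ℕ∞) (hr : 1 ≤ r) (F : DiffM n N r)
    (hF : OmegaStable n N r F) :
    (∀ (d : ℕ) (X : Type v) (Y : Type w) [MetricSpace X] [CompactSpace X] [MetricSpace Y]
      [CompactSpace Y] [Infinite Y] (Θ : X × Y → N) (ψ : V d → N → N) (φ : V d → X → X) (f : X → X)
      (h : Y ≃ₜ Y) (c : Y → V d), IsSkew F Θ ψ φ f h c → IsAct d n N ⊤ ψ → PerShadow h →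
      ChainTrans h → SkewConcl F Θ φ f h c) ∧
    (∀ (d : ℕ) (X : Type v) (Y : Type w) [MetricSpace X] [CompactSpace X] [MetricSpace Y]
      [CompactSpace Y] [Nonempty X] [Nonempty Y] (Θ : X × Y → N) (ψ : V d → N → N) (Ψ : ℝ → N → N)
      (φ : V d → X → X) (f : X → X) (g : ℝ → Y → Y) (C : ℝ → Y → V d) (τ : ℝ),
      IsSkewFlow n r Θ ψ Ψ φ g C → IsRFlow n N ⊤ Ψ → IsBaseFlow g → Continuous f →
      (∀ s x, f (φ s x) = φ s (f x)) → 0 < τ → ¬ ∀ x y, F (Θ (x, y)) = Ψ τ (Θ (f x, y))) := by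
  refine ⟨?_, ?_⟩
  · intro d X Y _ _ _ _ _ Θ ψ φ f h c H hψ hs hT
    exact skew_concl hr hF H hψ hs hT
  · intro d X Y _ _ _ _ _ _ Θ ψ Ψ φ f g C τ H hΨ hg hf hcomm hτ hmap
    exact no_flow_set hr hF H hΨ hg hf hcomm τ hτ hmap

end Pool.Agent.Results.MP_814647_an.HyperbolicBases
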