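import Pool.Agent.Run7.h619.PR.All2
import Pool.Agent.Run7.h619.PR.DefsP
import Pool.Agent.Run7.h619.PR.PerCyc

/-!
# `Ω`-stable products `f × g`, `f` arbitrary, `g` Anosov: Axiom A, no periodic cycles

`V n = ℝⁿ`, `DiffM n N r = Diff^r(N)` with its `C^r` topology `strongTop`
(`Pool/Agent/H718R2/G0.lean`); `OmegaStable`, `Omega F = Ω(F)`, `Per F`
(`Pool/Agent/TH80/OMS/Defs.lean`, `SymDefs.lean`).

In `Pool/Agent/Run7/h619/AA/Defs.lean`:
* `dv`, `IsClosedSub`, `IsContTan`, `IsNormOn`, `Contr`, `IsSplitting`, `IsHyperbolic F K`: the closed set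
  `K`, `F(K) = K`, is hyperbolic for `F` (continuous invariant splitting of the tangent bundle over `K`,
  exponential estimates); `AxA F`: `Ω(F)` is hyperbolic and the periodic points are dense in it;
  `Anosov F`: the whole manifold is hyperbolic;
* `PDiff k b n M B N`: the `C^∞` diffeomorphisms `Θ : M × B → N`; `Θ.pt x y = Θ(x, y)`;
* `TransChain`: chain transitivity (every transitive diffeomorphism is chain transitive).

In `Pool/Agent/Run7/h619/AU/Defs.lean`: `fwd F = F`, `bwd F = F⁻¹`; `Ws f P = W^s(P)`.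

In `Pool/Agent/Run7/h619/PR/DefsP.lean`: `IsProd Θ f g F`: `F(Θ(x, y)) = Θ(f(x), g(y))`. In `PR/DefsC.lean`:
`NoPerCycles`: there are no cycles of periodic orbits (`perOrb`) with wandering connecting points.
-/

set_option autoImplicit false

open scoped Manifold ContDiff Topology

universe u v w

namespace Pool.Agent.Results.MP_814647_an.ProductsWithAnosov

open Pool.Agent.H718R2.G Pool.Agent.TH80.OMS Run7.h619.AA Run7.h619.AU Run7.h619.PR

/-- Let `M`, `B`, `N` be closed manifolds, `B` infinite, `Θ : M × B → N` a `C^∞` diffeomorphism,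
`1 ≤ r ≤ ∞`, `f ∈ Diff^r(M)` arbitrary, and let `g ∈ Diff^r(B)` be a chain transitive Anosov
diffeomorphism. Let `F ∈ Diff^r(N)` be the product `F(Θ(x, y)) = Θ(f(x), g(y))`.

If `F` is `Ω`-stable in `Diff^r(N)`, then `F` satisfies Axiom A, and there are no cycles of periodic orbits
with wandering connecting points. -/
theorem result {k b n : ℕ} {M : Type v} {B : Type w} {N : Type u} [TopologicalSpace M] [T2Space M]
    [CompactSpace M] [ChartedSpace (V k) M] [IsManifold (𝓡 k) ∞ M] [MetricSpace B] [CompactSpace B]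
    [ChartedSpace (V b) B] [IsManifold (𝓡 b) ∞ B] [TopologicalSpace N] [T2Space N] [CompactSpace N]
    [ChartedSpace (V n) N] [IsManifold (𝓡 n) ∞ N] [Infinite B] (r : ℕ∞) (hr : 1 ≤ r)
    (Θ : PDiff k b n M B N) (f : DiffM k M r) (g : DiffM b B r) (F : DiffM n N r)
    (H : IsProd Θ (fwd f) (fwd g) (fwd F)) (hg : Anosov g) (hT : TransChain (fwd g))
    (hF : OmegaStable n N r F) : AxA F ∧ NoPerCycles (fwd F) (bwd F) :=
  ⟨(axA_prod_anosov hr H hg hT hF).1, no_per_cycles hr hF⟩

end Pool.Agent.Results.MP_814647_an.ProductsWithAnosov
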